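import Pool.Agent.H.MP_f9087f_lc.B

namespace Pool.Agent.Results.MP_0f8b55_lc.Hard

open Pool.Agent.Lib.CX Pool.Agent.Lib.ER Pool.Agent.H.MP_e14cd3_lc Pool.Agent.H.MP_f9087f_lc

/-- the graph is a subgraph of the unit distance graph of `ℝ^k` -/
def Sub (k : ℕ) (a : Gr) : Prop :=
  ∃ p : Fin a.n → EuclideanSpace ℝ (Fin k), Function.Injective p ∧ ∀ u v, a.G.Adj u v → dist (p u) (p v) = 1

/-- the Euclidean dimension is at most `d` -/
def EDim (d : ℕ) (a : Gr) : Prop := ∃ k, 1 ≤ k ∧ k ≤ d ∧ Sub k a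

theorem mono {k d a} (h : k ≤ d) : Sub k a → Sub d a := by
  obtain ⟨r, rfl⟩ := Nat.exists_eq_add_of_le h
  have e : ∀ p q : Pt k, dist (WithLp.toLp 2 (Fin.append p.ofLp (0 : Fin r → ℝ)) : Pt (k + r))
      (WithLp.toLp 2 (Fin.append q.ofLp (0 : Fin r → ℝ))) = dist p q := fun p q => by
    simp [EuclideanSpace.dist_eq, Fin.sum_univ_add]
  rintro ⟨p, h1, h2⟩
  refine ⟨fun u => WithLp.toLp 2 (Fin.append (p u).ofLp (0 : Fin r → ℝ)), fun u v c => h1 ?_, fun u v c => ?_⟩
  · rw [← dist_eq_zero, ← e, dist_eq_zero]; exact c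
  · rw [e, h2 u v c]

theorem result (d : ℕ) (h3 : 3 ≤ d) : Red ETR (EDim d) := by
  refine etr_of_dq (fun a => mkGr (bv d a.1.length ×ˢ [true, false]) (dbl (be d a.1.length a.2)))
    (by unfold dbl be bv vs es; fun_prop) fun M E h0 hE => ⟨?_, ?_⟩
  · rintro ⟨x, x0, hx, h⟩
    obtain ⟨p, h1, h2⟩ := real_to (bv d M.length ×ˢ [true, false]) (pos d x) (core_unit h3 h0 hE x0 h)
    refine ⟨d, by omega, le_rfl, p, h2 fun ⟨u, s⟩ hu ⟨v, t⟩ hv e => ?_, h1⟩
    replace hu := (List.mem_product.1 hu).1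
    replace hv := (List.mem_product.1 hv).1
    have nu := vec_ne h3 (x := x) u hu
    have nv := vec_ne h3 (x := x) v hv
    have k : ∀ (s : Bool) u, vec d x u ≠ 0 → ((if s then 1 else -1 : ℝ) * (√2 * ‖vec d x u‖)⁻¹) ≠ 0 := fun s u h => by
      have := norm_ne_zero_iff.2 h
      split_ifs <;> simp [this]
    obtain ⟨c, c0, hc⟩ : ∃ c : ℝ, c ≠ 0 ∧ vec d x u = c • vec d x v :=
      ⟨_, mul_ne_zero (inv_ne_zero (k s u nu)) (k t v nv), by
        rw [mul_smul, eq_inv_smul_iff₀ (k s u nu)]; exact e⟩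
    have big : ∀ u ∈ bv d M.length, u ∉ vs M.length → ∃ i < d, 3 ≤ i ∧ u = (0, i, 0) := fun u hu n => by
      obtain ⟨i, hi, rfl⟩ := List.mem_map.1 ((List.mem_append.1 hu).resolve_right n)
      refine ⟨i, List.mem_range.1 hi, not_lt.1 fun c => n ?_, rfl⟩
      interval_cases i <;> simp [vs]
    have uv : u = v := by
      by_contra n
      by_cases a : u ∈ vs M.length
      by_cases b : v ∈ vs M.length
      · obtain ⟨⟨a0, a1, a2⟩, -⟩ := (all_vs (M := M.length) (· ∈ vs M.length)).1 fun _ h => h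
        have q := fun w hw => (vec_inner h3 (x := x) hw a).symm.trans ((congrArg (inner ℝ (vec d x w)) hc).trans
          ((inner_smul_right _ _ _).trans (congrArg (c * ·) (vec_inner h3 (u := w) hw b))))
        refine n (c_dist (x := x) (fun i hi => ?_) (fun i hi j hj e => ?_) u a v b c
          (by simpa [cX, cY, cZ] using q _ a0) (by simpa [cX, cY, cZ] using q _ a1) (by simpa [cX, cY, cZ] using q _ a2))
        · rcases Nat.eq_zero_or_pos i with rfl | c
          · simp [x0]
          · linarith [hx 0 i c hi]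
        · rcases lt_trichotomy i j with c | c | c
          · exact absurd e (hx i j c hj).ne
          · exact c
          · exact absurd e (hx j i c hi).ne'
      · obtain ⟨i, hi, i3, rfl⟩ := big v hv b
        have := ev_vec (x := x) hi i3 u hu n
        rw [hc, inner_smul_right] at this
        exact nv (inner_self_eq_zero.1 ((mul_eq_zero.1 this).resolve_left c0))
      · obtain ⟨i, hi, i3, rfl⟩ := big u hu a
        have := ev_vec (x := x) hi i3 v hv (Ne.symm n)
        have q := congrArg (inner ℝ (ev d i)) hc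
        rw [inner_smul_right, this, mul_zero] at q
        exact nu (inner_self_eq_zero.1 q)
    subst uv
    have := smul_left_injective ℝ nu e
    have z := k true u nu
    simp only [if_true, one_mul] at z
    have := mul_right_cancel₀ z this
    cases s <;> cases t <;> first | rfl | (norm_num at this)
  · rintro ⟨k, -, hk, hs⟩
    obtain ⟨p, h1, h2⟩ := mono hk hs
    have m : ∀ q : Nd, q.1 ∈ bv d M.length → q ∈ bv d M.length ×ˢ [true, false] := fun ⟨u, s⟩ h =>
      List.mem_product.2 ⟨h, by cases s <;> simp⟩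
    obtain ⟨y, y1, y2⟩ := real_of (by
      rw [all_dbl]
      exact fun e he s t => let ⟨a, b, c⟩ := be_ok h0 hE e he
        ⟨m _ a, m _ b, fun q => c (congrArg Prod.fst q)⟩) p h2
    exact core_sound h3 h0 hE y y1 fun e he q => let ⟨a, b, c⟩ := ne_ok h0 e he; c (y2 h1 _ (m _ a) _ (m _ b) q)

end Pool.Agent.Results.MP_0f8b55_lc.Hard
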